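import Pool.Agent.W78.GA.T2

/-!
Project GC (helper78): coloured version of project GA. The parity of the number of prime factors of
`n^2+1` with `n` in a given class modulo `2`, and of `3k^2+3k+1`. Definitions and statements.
-/

set_option autoImplicit false

namespace Pool.Agent.W78.GC

open Finset Filter
open Pool.Agent.H376R2.MR
open Pool.Agent.W78.GA

variable {t c : ℤ}

open scoped Classical in
/-- primitive elements with `nm z ≤ X` of the given colour -/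
noncomputable def cball (col : Qd t c → Prop) (X : ℝ) : Finset (Qd t c) := (pball t c X).filter col

/-- `∑_{z primitive, of the given colour} λ(N z) w(log(N z/Y))/N z (z/|z|)^k` -/
noncomputable def Gc (col : Qd t c → Prop) (Y : ℝ) (k : ℤ) : ℂ :=
  DPG (cball col (Real.exp 1 * Y)) (fun z => (gl z : ℂ) * (bg Y z : ℂ)) k

/-- the colours which occur: closed under division by natural numbers, and under multiplication by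
an element `u` with `λ(N u) = -1` -/
structure Col (t c : ℤ) (col : Qd t c → Prop) (u : Qd t c) : Prop where
  div : ∀ (m : ℕ) (z : Qd t c), col ((m : Qd t c) * z) → col z
  mul : ∀ z, col z → col (u * z)
  u_ne : u ≠ 0
  u_lam : lam (nm u) = -1

/-- the colour `z ≡ 1 mod 2` of the Gaussian integers `x + i y` -/
def col1 (z : Qd 0 1) : Prop := Odd z.re ∧ Even z.im

/-- the elements prime to `3` of `ℤ[ω]`, `ω^2 = 3ω-3` (Eisenstein integers); the norm is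
`x^2+3xy+3y^2` -/
def col3 (z : Qd 3 3) : Prop := ¬ (3 : ℤ) ∣ z.re

/-- MRC: the Matomaki-Radziwill theorem for the angles of the elements of the given colour -/
def S_MRC (col : Qd t c → Prop) : Prop := ∀ η : ℝ, 0 < η → ∃ h : ℝ, 1 ≤ h ∧ ∃ Y₀ : ℝ, ∀ Y : ℝ,
  Y₀ ≤ Y → ∑ k ∈ (FK ⌊Y / h⌋₊).erase 0, ‖Gc col Y k‖ ^ 2 ≤ η

/-- A0C: the main frequency of the constant function is not small -/
def S_A0C (col : Qd t c → Prop) : Prop := ∃ c₀ : ℝ, 0 < c₀ ∧ ∃ Y₀ : ℝ, ∀ Y : ℝ, Y₀ ≤ Y →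
  c₀ ≤ ∑ z ∈ cball col (Real.exp 1 * Y), bg Y z

/-- `B` meets every sector between two elements of the given colour with different signs and norms
at most `X` -/
def Hits (col : Qd t c → Prop) (X : ℝ) (B : Finset (Qd t c)) : Prop :=
  ∀ z z' : Qd t c, z ∈ cball col X → z' ∈ cball col X → 0 < dt z z' → gl z ≠ gl z' →
    ∃ q ∈ B, 0 ≤ dt z q ∧ 0 ≤ dt q z'

/-- PAIRC: pairs of close directions with different signs -/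
def S_PAIRC (t c : ℤ) : Prop := ∀ (col : Qd t c → Prop) (u : Qd t c) (U : ℝ),
  (∀ (m : ℕ) (z : Qd t c), col ((m : Qd t c) * z) → col z) → (∀ z, col z → col (u * z)) →
  u ≠ 0 → (nm u : ℝ) ≤ U →
  ∃ C : ℝ, 0 < C ∧ ∀ (X T : ℝ) (K : ℕ) (B : Finset (Qd t c)), 1 ≤ X → 1 ≤ T → 1 ≤ K →
  2 * T ≤ K → (0 : Qd t c) ∉ B → Hits col (U * X) B →
  (open scoped Classical in
    ∑ z ∈ cball col X, ∑ z' ∈ cball col X,
      (if gl z ≠ gl (u * z') then Fj K (ang z - ang (u * z')) else 0)) ≤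
    C * (K * (T * X / K + 1) ^ 2 * (B.card : ℝ) + X ^ 2 / T + X * K / T ^ 2)

/-- SCC: every set which meets all sectors between two elements of the given colour with different
signs is large -/
def S_SCC (col : Qd t c → Prop) : Prop := ∃ ε : ℝ, 0 < ε ∧ ∃ X₀ : ℝ, ∀ X : ℝ, X₀ ≤ X →
  ∀ B : Finset (Qd t c), (0 : Qd t c) ∉ B → Hits col X B → ε * X ≤ (B.card : ℝ)

/-- MOM0C: the mean values of `Gc` -/
def S_MOM0C (col : Qd t c → Prop) : Prop := ∃ C : ℝ, 0 < C ∧ ∀ (K : ℕ) (Z : ℝ), 3 ≤ Z → 1 ≤ K →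
    ∑ k ∈ FK K, ‖Gc col Z k‖ ^ 2 ≤ C * (1 + (K : ℝ) / Z)

/-- ITER: a recursive inequality -/
def S_ITER : Prop := ∀ (A G : ℝ → ℤ → ℂ) (b₁ b₂ : ℝ), 1 ≤ b₁ → b₁ ≤ 8 → 1 ≤ b₂ → b₂ ≤ 8 →
  (∀ η : ℝ, 0 < η → ∃ h : ℝ, 1 ≤ h ∧ ∃ Y₀ : ℝ, ∀ Y : ℝ,
    Y₀ ≤ Y → ∑ k ∈ (FK ⌊Y / h⌋₊).erase 0, ‖A Y k‖ ^ 2 ≤ η) →
  (∃ C : ℝ, 0 < C ∧ ∀ (K : ℕ) (Z : ℝ), 3 ≤ Z → 1 ≤ K →
    ∑ k ∈ FK K, ‖G Z k‖ ^ 2 ≤ C * (1 + (K : ℝ) / Z)) →
  (∀ (Y : ℝ) (k : ℤ), 0 < Y →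
    ‖G Y k‖ ≤ ‖A Y k‖ + 1 / 4 * ‖G (Y / b₁) k‖ + 1 / 4 * ‖G (Y / b₂) k‖) →
  ∀ η : ℝ, 0 < η → ∃ h : ℝ, 1 ≤ h ∧ ∃ Y₀ : ℝ, ∀ Y : ℝ,
    Y₀ ≤ Y → ∑ k ∈ (FK ⌊Y / h⌋₊).erase 0, ‖G Y k‖ ^ 2 ≤ η

/-- RECE: the recursion for the colour `col1` -/
def S_RECE : Prop := ∀ (Y : ℝ) (k : ℤ), 0 < Y → ‖Gc col1 Y k‖ ≤
  ‖GG 0 4 Y k‖ + 1 / 4 * ‖Gc col1 (Y / 4) k‖ + 1 / 4 * ‖Gc col1 (Y / 8) k‖

/-- REC3: the recursion for the colour `col3` -/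
def S_REC3 : Prop := ∀ (Y : ℝ) (k : ℤ), 0 < Y → ‖Gc col3 Y k‖ ≤
  ‖GG 3 3 Y k‖ + 1 / 3 * ‖Gc col3 (Y / 3) k‖

/-- BETWE: path of odd-odd edges. For every even function `F` with `F z ≠ F z'`, `z` and `z'` odd
primitive Gaussian integers, there is an odd-odd pair `p, p'` of determinant `1` with
`F p ≠ F p'`, and a vector `q` of the sector `[z, z']` among `p, p', p+p', p-p'` up to sign. -/
def S_BETWE : Prop := ∀ (F : Qd 0 1 → ℤ), (∀ z, F (-z) = F z) → ∀ (X : ℝ) (z z' : Qd 0 1),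
  z ∈ pball 0 1 X → z' ∈ pball 0 1 X → Odd (nm z) → Odd (nm z') → 0 < dt z z' → F z ≠ F z' →
  ∃ p p' q : Qd 0 1, p ∈ pball 0 1 X ∧ p' ∈ pball 0 1 X ∧ Odd (nm p) ∧ Odd (nm p') ∧
    dt p p' = 1 ∧ F p ≠ F p' ∧ 0 ≤ dt z q ∧ 0 ≤ dt q z' ∧
    (q = p ∨ q = -p ∨ q = p' ∨ q = -p' ∨ q = p + p' ∨ q = -(p + p') ∨ q = p - p' ∨ q = -(p - p'))

open scoped Classical in
/-- the pairs of determinant one with sign `s` and `ip` satisfying `Pr` -/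
noncomputable def EP (t c : ℤ) (Pr : ℤ → Prop) (s : ℤ) (X : ℝ) : Finset (Qd t c × Qd t c) :=
  (dedge t c X).filter (fun e => Pr (ip e.1 e.2) ∧ lam (NN e) = s)

/-- BETW3: between two elements prime to `3` with different signs there are pairs of determinant one
of both signs with `3 ∣ ip`, one of whose members lies (up to sign) in the sector -/
def S_BETW3 : Prop := ∀ (X : ℝ) (z z' : Qd 3 3), z ∈ cball col3 X → z' ∈ cball col3 X →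
  0 < dt z z' → gl z ≠ gl z' → ∀ s : ℤ, s = 1 ∨ s = -1 →
  ∃ e ∈ EP 3 3 (fun n => (3 : ℤ) ∣ n) s (4 * X), ∃ q : Qd 3 3, 0 ≤ dt z q ∧ 0 ≤ dt q z' ∧
    (q = e.1 ∨ q = -e.1 ∨ q = e.2 ∨ q = -e.2)

/-- EDGEP: a positive proportion of the pairs of determinant one has sign `s` and `ip` in the given
class -/
def S_EDGEP (t c : ℤ) (Pr : ℤ → Prop) : Prop := ∀ s : ℤ, s = 1 ∨ s = -1 →
  ∃ κ : ℝ, 0 < κ ∧ ∃ X₀ : ℝ, ∀ X : ℝ, X₀ ≤ X → κ * X ≤ ((EP t c Pr s X).card : ℝ)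

/-- FINP: the final statement -/
def S_FINP (t c : ℤ) (Pr : ℤ → Prop) : Prop := ∃ S : ℕ, ∀ e : ℤ, e = 1 ∨ e = -1 →
  (∀ ε : ℝ, 0 < ε → ∃ N₀ : ℕ, ∀ N : ℕ, N₀ ≤ N → (N : ℝ) / Real.log N ^ (2 * Real.log 2 + ε) ≤
    (Set.ncard {n : ℕ | 1 ≤ n ∧ n ≤ N ∧ Pr n ∧ SqM S e ((n : ℤ) ^ 2 + t * n + c)} : ℝ)) ∧
  ∃ κ : ℝ, 0 < κ ∧ ∃ N₀ : ℕ, ∀ N : ℕ, N₀ ≤ N → κ * N ≤
    (Set.ncard {p : ℕ × ℕ | 1 ≤ p.1 ∧ p.1 ≤ N ∧ 1 ≤ p.2 ∧ p.2 ≤ N ∧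
      (∃ n : ℤ, Pr n ∧ ((p.1 * p.2 : ℕ) : ℤ) = n ^ 2 + t * n + c) ∧
      SqM S e ((p.1 * p.2 : ℕ) : ℤ)} : ℝ)

end Pool.Agent.W78.GC
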