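import Pool.Agent.W78.GA.All
import Pool.Agent.W327.GA.Ang1
import Pool.Agent.W500.GC.Iter
import Pool.Agent.W12.GC.Mom0c
import Pool.Agent.W12.GC.Rece
import Pool.Agent.W45.GC.Rec3
import Pool.Agent.W578.GC.A0C
import Pool.Agent.W571.GC.Pair
import Pool.Agent.W571.GC.Betw
import Pool.Agent.W85.GC.Edgee
import Pool.Agent.W605.GC.Edge3
import Pool.Agent.W338.GC.Fin
import Pool.Agent.W435.GC.SCC

/-!
Project GC (helper78): all parts together.
-/

set_option autoImplicit false

namespace Pool.Agent.W78.GC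

open Finset Filter
open Pool.Agent.H376R2.MR
open Pool.Agent.W78.GA

/-- multiplication by `1 + 2 i` preserves the class `1 mod 2` -/
lemma hcol1 : Col 0 1 col1 ⟨1, 2⟩ where
  div := by
    rintro m z ⟨h1, h2⟩
    simp only [QuadraticAlgebra.re_mul, QuadraticAlgebra.im_mul, QuadraticAlgebra.re_natCast,
      QuadraticAlgebra.im_natCast] at h1 h2
    have h1' : Odd ((m : ℤ) * z.re) := by simpa using h1
    have h2' : Even ((m : ℤ) * z.im) := by simpa using h2
    rw [Int.odd_mul] at h1'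
    refine ⟨h1'.2, ?_⟩
    rw [Int.even_mul] at h2'
    rcases h2' with h | h
    · exact absurd h (Int.not_even_iff_odd.2 h1'.1)
    · exact h
  mul := by
    rintro z ⟨h1, h2⟩
    unfold col1
    simp only [QuadraticAlgebra.re_mul, QuadraticAlgebra.im_mul]
    constructor
    · obtain ⟨a, ha⟩ := h1
      exact ⟨a - z.im, by rw [ha]; ring⟩
    · obtain ⟨b, hb⟩ := h2
      exact ⟨z.re + b, by rw [hb]; ring⟩
  u_ne := by
    intro h
    have := congrArg QuadraticAlgebra.re h
    simp at this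
  u_lam := by
    have : nm (⟨1, 2⟩ : Qd 0 1) = 5 := by simp [nm]
    rw [this]
    exact lam_prime (by norm_num)

/-- multiplication by an element of norm `7` preserves the elements prime to `3` -/
lemma hcol3 : Col 3 3 col3 ⟨1, 1⟩ where
  div := by
    rintro m z h
    unfold col3 at *
    simp only [QuadraticAlgebra.re_mul, QuadraticAlgebra.re_natCast,
      QuadraticAlgebra.im_natCast] at h
    intro h3
    apply h
    have : (3 : ℤ) ∣ (m : ℤ) * z.re := Dvd.dvd.mul_left h3 _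
    simpa using this
  mul := by
    rintro z h
    unfold col3 at *
    simp only [QuadraticAlgebra.re_mul]
    intro h3
    apply h
    have : z.re = (1 * z.re + -3 * 1 * z.im) + 3 * z.im := by ring
    rw [this]
    exact dvd_add h3 (Dvd.intro _ rfl)
  u_ne := by
    intro h
    have := congrArg QuadraticAlgebra.re h
    simp at this
  u_lam := by
    have : nm (⟨1, 1⟩ : Qd 3 3) = 7 := by simp [nm]
    rw [this]
    exact lam_prime (by norm_num)

/-- the Matomaki-Radziwill theorem for the class `1 mod 2` of the Gaussian integers -/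
theorem mrc1 : S_MRC col1 := by
  have h01 : (0 : ℤ) ^ 2 < 4 * 1 := by norm_num
  have h04 : (0 : ℤ) ^ 2 < 4 * 4 := by norm_num
  exact W500.GC.iter (GG 0 4) (Gc col1) 4 8 (by norm_num) (by norm_num) (by norm_num)
    (by norm_num) (GA.mr h04 (Pool.Agent.W327.GA.ang1 h04))
    (Pool.Agent.W12.GC.mom0c h01 (Pool.Agent.W327.GA.ls h01) (Pool.Agent.W45.GA.lat h01) col1)
    (fun Y k hY => Pool.Agent.W12.GC.Rece.rece Y k hY)

/-- the Matomaki-Radziwill theorem for the Eisenstein integers prime to `3` -/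
theorem mrc3 : S_MRC col3 := by
  have h33 : (3 : ℤ) ^ 2 < 4 * 3 := by norm_num
  refine W500.GC.iter (GG 3 3) (Gc col3) 3 3 (by norm_num) (by norm_num) (by norm_num)
    (by norm_num) (GA.mr h33 (Pool.Agent.W327.GA.ang1 h33))
    (Pool.Agent.W12.GC.mom0c h33 (Pool.Agent.W327.GA.ls h33) (Pool.Agent.W45.GA.lat h33) col3)
    (fun Y k hY => (Pool.Agent.W45.GC.rec3 Y k hY).trans ?_)
  have := norm_nonneg (Gc col3 (Y / 3) k)
  linarith

theorem scc1 : S_SCC col1 := by
  have h01 : (0 : ℤ) ^ 2 < 4 * 1 := by norm_num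
  have h04 : (0 : ℤ) ^ 2 < 4 * 4 := by norm_num
  exact Pool.Agent.W435.GC.scc_of h01 col1 ⟨1, 2⟩ hcol1 mrc1
    (Pool.Agent.W571.GC.pairc h01 (Pool.Agent.W803.GA.sect h01) (Pool.Agent.W45.GA.lat h01))
    (Pool.Agent.W578.GC.A0C.a0e (Pool.Agent.W45.GA.lat h04))

theorem scc3 : S_SCC col3 := by
  have h33 : (3 : ℤ) ^ 2 < 4 * 3 := by norm_num
  exact Pool.Agent.W435.GC.scc_of h33 col3 ⟨1, 1⟩ hcol3 mrc3
    (Pool.Agent.W571.GC.pairc h33 (Pool.Agent.W803.GA.sect h33) (Pool.Agent.W45.GA.lat h33))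
    (Pool.Agent.W578.GC.A0C.a03 (Pool.Agent.W45.GA.lat h33))

variable {t c : ℤ}

lemma fin_of (hD : t ^ 2 < 4 * c) (Pr : ℤ → Prop) (hPr : ∀ n, Pr (-t - n) ↔ Pr n)
    (h : S_EDGEP t c Pr) : S_FINP t c Pr := by
  have hlat : S_LAT t c := Pool.Agent.W45.GA.lat hD
  have hred : S_RED t c := Pool.Agent.W322.GA.red hD
  have hlati : S_LATI t c := Pool.Agent.W322.GA.lati_of hD hlat hred
  exact Pool.Agent.W338.GC.finp hD Pr hPr (Pool.Agent.W29.GA.mult hD)
    (Pool.Agent.W29.GA.typ_of hD hlat hlati) (Pool.Agent.W29.GA.ve hD) (GA.sqb hD) h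

/-- `n` even -/
theorem fin_even : S_FINP 0 1 (fun n => Even n) :=
  fin_of (by norm_num) _ (fun n => by rw [neg_zero, zero_sub, even_neg])
    (Pool.Agent.W85.GC.edgee scc1 Pool.Agent.W571.GC.betwe).1

/-- `n` odd -/
theorem fin_odd : S_FINP 0 1 (fun n => Odd n) :=
  fin_of (by norm_num) _ (fun n => by rw [neg_zero, zero_sub, odd_neg])
    (Pool.Agent.W85.GC.edgee scc1 Pool.Agent.W571.GC.betwe).2

/-- `3 ∣ n` -/
theorem fin_three : S_FINP 3 3 (fun n => (3 : ℤ) ∣ n) :=
  fin_of (by norm_num) _ (fun n => by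
    rw [show (-3 - n : ℤ) = -(n + 3 * 1) by ring, dvd_neg]
    constructor
    · intro h
      have := dvd_sub h (Dvd.intro 1 rfl : (3 : ℤ) ∣ 3 * 1)
      simpa using this
    · intro h
      exact dvd_add h (Dvd.intro 1 rfl))
    (Pool.Agent.W605.GC.edge3 scc3 Pool.Agent.W571.GC.betw3)

end Pool.Agent.W78.GC
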